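import Pool.Agent.H21.Sylv.Main

/-!
# Sylvester's four-point problem over sets of finite area: the infimum is not attained
-/

open MeasureTheory ProbabilityTheory

namespace Pool.Agent.Results.MP_4d3a90_co.InfimumNotAttained

/-- The Euclidean plane. -/
abbrev Plane := EuclideanSpace ℝ (Fin 2)

/-- The admissible sets: Lebesgue measurable plane sets of positive finite area. -/
def Admissible (D : Set Plane) : Prop :=
  NullMeasurableSet D volume ∧ 0 < volume D ∧ volume D < ⊤

/-- `Sylv D`: the probability that, for four independent points with the uniform distribution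
`volume[|D]` on `D`, one of the points lies in the convex hull of the three others. -/
noncomputable def Sylv (D : Set Plane) : ℝ :=
  (Measure.pi (fun _ : Fin 4 => (volume[|D]))).real
    {x : Fin 4 → Plane | ∃ i, x i ∈ convexHull ℝ (x '' {i}ᶜ)}

/-- `p`: the infimum of `1 - Sylv D` over all admissible sets `D`. -/
noncomputable def p : ℝ := sInf {q : ℝ | ∃ D : Set Plane, Admissible D ∧ q = 1 - Sylv D}

/-- The values `1 - Sylv D` are nonnegative. -/
lemma one_sub_Sylv_nonneg {D : Set Plane} (hD : Admissible D) : 0 ≤ 1 - Sylv D := by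
  have hprob : IsProbabilityMeasure (volume[|D]) :=
    cond_isProbabilityMeasure_of_finite hD.2.1.ne' hD.2.2.ne
  have : Sylv D ≤ 1 := measureReal_le_one
  linarith

lemma p_le {D : Set Plane} (hD : Admissible D) : p ≤ 1 - Sylv D := by
  apply csInf_le
  · refine ⟨0, ?_⟩
    rintro q ⟨D', hD', rfl⟩
    exact one_sub_Sylv_nonneg hD'
  · exact ⟨D, hD, rfl⟩

lemma one_sub_Sylv_eq {D : Set Plane} (hD : Admissible D) :
    1 - Sylv D = Pool.Agent.H21.Sylv.F (volume[|D]) := by
  have hprob : IsProbabilityMeasure (volume[|D]) :=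
    cond_isProbabilityMeasure_of_finite hD.2.1.ne' hD.2.2.ne
  rw [Sylv, Pool.Agent.H21.Sylv.real_event_eq _ cond_absolutelyContinuous]
  ring

/-- **The infimum defining `p` is not attained**: every admissible set `D` satisfies the strict
inequality `p < 1 - Sylv D`. -/
theorem result : ∀ D : Set Plane, Admissible D → p < 1 - Sylv D := by
  intro D hD
  obtain ⟨hDm, hD0, hDt⟩ := hD
  set D' : Set Plane := toMeasurable volume D with hD'
  have hae : D' =ᵐ[volume] D := hDm.toMeasurable_ae_eq
  have hvol : volume D' = volume D := measure_congr hae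
  have hcond : volume[|D] = volume[|D'] := by
    rw [ProbabilityTheory.cond, ProbabilityTheory.cond, hvol, Measure.restrict_congr_set hae]
  have hbound : ∀ E : Set Plane, MeasurableSet E → volume E ≠ 0 → volume E ≠ ⊤ →
      p ≤ Pool.Agent.H21.Sylv.F (volume[|E]) := by
    intro E hE hE0 hEt
    have hEa : Admissible E := ⟨hE.nullMeasurableSet, pos_iff_ne_zero.mpr hE0, hEt.lt_top⟩
    rw [← one_sub_Sylv_eq hEa]
    exact p_le hEa
  rw [one_sub_Sylv_eq ⟨hDm, hD0, hDt⟩, hcond]
  exact Pool.Agent.H21.Sylv.strict_of_lower_bound p hbound (measurableSet_toMeasurable volume D)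
    (by rw [hvol]; exact hD0.ne') (by rw [hvol]; exact hDt.ne)

end Pool.Agent.Results.MP_4d3a90_co.InfimumNotAttained
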